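import Pool.Agent.Helper92.BW.All

/-!
# The volume of explicit polytopes of bounded elimination width

The definitions are in `Pool.Agent.Helper92.BW.Stmt`, `Pool.Agent.Helper92.FR.Stmt` and
`Pool.Agent.Helper92.VP.Defs`.
-/

namespace Pool.Agent.Results.MP_481f43_lc.BoundedWidth

open Pool.Agent.Helper92.BW

/-- For every `k`, a deterministic polynomial-time machine computes the volume of a bounded
polyhedron `{x : A x ≥ b}`, given by `A`, `b`, an elimination forest of width at most `k` and
`q ≥ 1` in unary, up to a relative error of at most `1 / q`. -/
theorem result : ∀ k : ℕ, BoundedWidth k := boundedWidth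

end Pool.Agent.Results.MP_481f43_lc.BoundedWidth
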