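import Pool.Agent.Helper92.FR.All

/-!
# The volume of explicit polytopes with few dense rows

The definitions are in `Pool.Agent.Helper92.FR.Stmt` and `Pool.Agent.Helper92.VP.Defs`.
-/

namespace Pool.Agent.Results.MP_481f43_lc.FewDenseRows

open Pool.Agent.Helper92.FR

/-- For every `κ`, a deterministic polynomial-time machine computes the volume of a bounded
polyhedron `{x : A x ≥ b}`, given by `A`, `b` and `q ≥ 1` in unary, up to a relative error of at
most `1 / q`, if `(d (log₂ L + 2) q) ^ d ≤ (L + q) ^ κ`, where `d` is the number of the rows with at
least two nonzero coefficients and `L` is the size of the input. -/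
theorem result : ∀ κ : ℕ, FewDense κ := fewDense

end Pool.Agent.Results.MP_481f43_lc.FewDenseRows
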