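import Pool.Agent.Helper92.BO.AllP

/-!
# The volume of pair systems of bounded degree

The definitions are in `Pool.Agent.Helper92.BO.StmtP`, `Pool.Agent.Helper92.FR.Stmt` and
`Pool.Agent.Helper92.VP.Defs`.
-/

namespace Pool.Agent.Results.MP_481f43_lc.PairSystems

open Pool.Agent.Helper92.BO

/-- For every `Δ`, a deterministic polynomial-time machine computes, up to a relative error of at
most `1 / q` (`q ≥ 1` in unary), the volume of the polytopes given by `0 ≤ x i ≤ 1` and inequalities
`x i + x j ≤ 1`, `x i + x j ≥ 1`, `x i ≤ x j`, such that each variable has the same sign in all of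
them and occurs in them together with at most `Δ` other variables. -/
theorem result : ∀ Δ : ℕ, PairApprox Δ := pairApprox

end Pool.Agent.Results.MP_481f43_lc.PairSystems
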