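import Pool.Agent.Helper92.VP.Fin

/-!
# The volume of explicit polytopes with few nonzero coefficients in each row

All definitions are in `Pool.Agent.Helper92.VP.Defs`.
-/

namespace Pool.Agent.Results.MP_481f43_lc.SparseRows

open Pool.Agent.Helper92.VP

/-- For all `k` and `c`, a deterministic polynomial-time machine computes the volume of explicit
polytopes in a given box with at most `k` nonzero coefficients in each row, up to the additive error
`vol (box) / (log₂ L + 2) ^ c`, where `L` is the number of the bits of the input. -/
theorem result : ∀ k c : ℕ, Additive k c := additive

end Pool.Agent.Results.MP_481f43_lc.SparseRows
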